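import Pool.Agent.W2helper59.CW.Stm

/-! Piece CONT of project CW (helper59). -/

set_option autoImplicit false

namespace Pool.Agent.W2helper81.CW

open MeasureTheory Set Pool.Agent.W2helper59.CW

lemma kr_cont (al de ga : ℕ) {h : ℝ → ℝ} (hh : Continuous h) : Continuous (Kr al de ga h) := by
  have h1 : Kr al de ga h =
      fun x => - ∫ y in (1 : ℝ)..x, x ^ al * (y - x) ^ de * (1 - y) ^ ga * h y := by
    funext x
    unfold Kr
    rw [intervalIntegral.integral_symm]
  rw [h1]
  refine Continuous.neg ?_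
  refine intervalIntegral.continuous_parametric_intervalIntegral_of_continuous
    (f := fun x y : ℝ => x ^ al * (y - x) ^ de * (1 - y) ^ ga * h y) ?_ continuous_id
  simp only [Function.uncurry_def]
  fun_prop

lemma kr_nonneg (al de ga : ℕ) {h : ℝ → ℝ} (hh : ∀ x ∈ Icc (0 : ℝ) 1, 0 ≤ h x) :
    ∀ x ∈ Icc (0 : ℝ) 1, 0 ≤ Kr al de ga h x := by
  intro x hx
  unfold Kr
  refine intervalIntegral.integral_nonneg hx.2 fun y hy => ?_
  have h1 : 0 ≤ x ^ al := pow_nonneg hx.1 _
  have h2 : 0 ≤ (y - x) ^ de := pow_nonneg (by linarith [hy.1]) _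
  have h3 : 0 ≤ (1 - y) ^ ga := pow_nonneg (by linarith [hy.2]) _
  have h4 : 0 ≤ h y := hh y ⟨le_trans hx.1 hy.1, hy.2⟩
  positivity

theorem p_cont : P_CONT := by
  intro al de ga k
  induction k with
  | zero => exact ⟨continuous_const, fun x _ => zero_le_one⟩
  | succ k ih =>
    have e : G al de ga (k + 1) = Kr al de ga (G al de ga k) := by
      unfold G
      exact Function.iterate_succ_apply' _ _ _
    rw [e]
    exact ⟨kr_cont al de ga ih.1, kr_nonneg al de ga ih.2⟩

end Pool.Agent.W2helper81.CW
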